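import Pool.Agent.U411.SEG.Sum
import Pool.Agent.U411.SEG.Dim

/-!
# Summed gamma-differences of symmetric edge polytopes: a negative coefficient

The graph `G0` has the vertices `0, ..., 8` and nineteen edges: those of the complete graph on
`0, 1, 2, 3`, those of the triangle `4, 5, 6`, the five edges from `7` to `0, 1, 4, 5, 6` and the
five edges from `8` to `2, 3, 4, 5, 6`. It is 2-connected, and
`Z_{G0}(t) = 38 t + 508 t^2 + 668 t^3 - 12 t^4`; the theorem is that the last coefficient is `-12`.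
-/

set_option autoImplicit false

namespace Pool.Agent.Results.MP_ca000f_co.NegativeCoefficient

open Pool.Agent.R135.SEP Pool.Agent.U411.SEG

/-- The graph `G0` is 2-connected; `P_{G0}` and the polytopes `P_{G0 ∖ e}` have dimension `8`; the
coefficient of `t^4` of `Z_{G0}(t) = ∑_e (γ_{P_{G0}} - γ_{P_{G0 ∖ e}})` is `-12`: for any
`γ`-polynomials `γ G0`, `γ (G0 ∖ e)` of the `h^*`-polynomials, and also when the fourth coefficients
are computed from the first five coefficients of the `h^*`-polynomials by the recursion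
`γ_j = h_j - ∑_{i < j} γ_i binom(8 - 2 i, j - i)`. -/
theorem result :
    TwoConnected G0 ∧
    Module.finrank ℝ (vectorSpan ℝ (edgePolytope G0)) = 8 ∧
    (∀ e ∈ G0.edgeSet,
      Module.finrank ℝ (vectorSpan ℝ (edgePolytope (G0.deleteEdges {e}))) = 8) ∧
    (∀ γ : SimpleGraph (Fin 9) → Polynomial ℤ,
      IsGamma 8 (hStar 8 (edgePolytope G0)) (γ G0) →
      (∀ e ∈ G0.edgeSet,
        IsGamma 8 (hStar 8 (edgePolytope (G0.deleteEdges {e}))) (γ (G0.deleteEdges {e}))) →
      (∑ e ∈ G0.edgeFinset, (γ G0 - γ (G0.deleteEdges {e}))).coeff 4 = -12) ∧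
    ∑ e ∈ G0.edgeFinset, (gammaCoeff 8 (hStar 8 (edgePolytope G0)) 4 -
      gammaCoeff 8 (hStar 8 (edgePolytope (G0.deleteEdges {e}))) 4) = -12 := by
  refine ⟨twoConnected_G0, dim_edgePolytope (by norm_num) connected_G0, ?_, sum_gamma,
    sum_gammaCoeff⟩
  intro e he
  obtain ⟨a1, a2, a3, a4, hv, _⟩ := edge_vals e (SimpleGraph.mem_edgeFinset.mpr he)
  exact dim_edgePolytope (by norm_num) hv.conn

end Pool.Agent.Results.MP_ca000f_co.NegativeCoefficient
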